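import Pool.Agent.E8helper78.FL.Basic

/-!
# Project FL: the signs of the form (`S_ROT2`)
-/

set_option autoImplicit false

open scoped RealInnerProductSpace NNReal

namespace Pool.Agent.E8helper60.FL

open Pool.Agent.E8helper78.FL

theorem pr_fix {V : Type} [NormedAddCommGroup V] [InnerProductSpace ℝ V] {L : List V}
    (hL : ∀ b ∈ L, ‖b‖ = 1) {x : V} (hx : ∀ b ∈ L, ⟪b, x⟫ = 0) : pr L x = x := by
  induction L with
  | nil => rfl
  | cons b L ih =>
    rw [pr_cons_apply, ih (fun d hd => hL d (by simp [hd])) (fun d hd => hx d (by simp [hd])),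
      rf_fix (hL b (by simp)) (hx b (by simp))]

theorem t_ROT2 (h : S_ROT1) : S_ROT2 := by
  intro V _ _ _ Φ a L E hS hE
  have ha : ‖a‖ = 1 := hS.roots.unit a (hS.mem a (by simp))
  have hL : ∀ b ∈ L, ‖b‖ = 1 := fun b hb => hS.roots.unit b (hS.mem b (by simp [hb]))
  have haL : a ∉ L := (List.nodup_cons.1 hS.nodup).1
  set S : Submodule ℝ V := Submodule.span ℝ {b | b ∈ L} with hSdef
  have haS : a ∉ S := by
    intro haS
    have h1 := hS.indep.notMem_span_image (s := {x : {x // x ∈ a :: L} | x.1 ∈ L})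
      (x := ⟨a, by simp⟩) haL
    apply h1
    have h2 : (fun x : {x // x ∈ a :: L} => (x : V)) '' {x | x.1 ∈ L} = {b | b ∈ L} := by
      ext b
      constructor
      · rintro ⟨x, hx, rfl⟩
        exact hx
      · intro hb
        exact ⟨⟨b, by simp [show b ∈ L from hb]⟩, hb, rfl⟩
    rw [h2]
    exact haS
  have hω : ∃ ω ∈ Sᗮ, ⟪ω, a⟫ ≠ 0 := by
    by_contra hc
    push Not at hc
    apply haS
    rw [← Submodule.orthogonal_orthogonal S, Submodule.mem_orthogonal]
    exact hc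
  obtain ⟨ω₀, hω₀, hne⟩ := hω
  set ω : V := (1 / (2 * ⟪ω₀, a⟫)) • ω₀ with hωdef
  have hωa : ⟪ω, a⟫ = 1 / 2 := by
    rw [hωdef, real_inner_smul_left]
    field_simp
  have hωL : ∀ b ∈ L, ⟪b, ω⟫ = 0 := by
    intro b hb
    have h1 : ω ∈ Sᗮ := Submodule.smul_mem _ _ hω₀
    exact (Submodule.mem_orthogonal _ _).1 h1 b (Submodule.subset_span hb)
  have hc : ω - pr (a :: L) ω = a := by
    rw [pr_cons_apply, pr_fix hL hωL, rf_apply ha, real_inner_comm, hωa]
    simp
  have hEa : ∀ y, E a y = ⟪ω, y⟫ := by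
    intro y
    have h1 := hE ω y
    rw [hc] at h1
    exact h1
  have h1 : ∀ b ∈ PL Φ (a :: L), 0 ≤ E a b := by
    rintro b ⟨-, hb⟩
    refine cone_nonneg hb (E a) fun x hx => ?_
    rw [hEa]
    rcases List.mem_cons.1 hx with rfl | hx
    · rw [hωa]
      norm_num
    · rw [real_inner_comm, hωL x hx]
  refine ⟨h1, fun b hb hba => ?_⟩
  have h2 := h1 (rf a b) ((h V Φ a L hS).2.2.2 b hb hba)
  rw [rf_apply ha, map_sub, map_smul, smul_eq_mul, hE.root ha] at h2
  have h3 := hE.add a b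
  linarith

end Pool.Agent.E8helper60.FL
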