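import Pool.Agent.E8helper78.FL.Basic

/-!
# Project FL: reduced words (`S_WORD`)
-/

set_option autoImplicit false

open scoped RealInnerProductSpace NNReal

namespace Pool.Agent.E8helper60.FL

open Pool.Agent.E8helper78.FL

variable {V : Type} [NormedAddCommGroup V] [InnerProductSpace ℝ V]

theorem pr_reverse (L : List V) : pr L.reverse = (pr L)⁻¹ := by
  induction L with
  | nil => simp
  | cons a L ih => rw [List.reverse_cons, pr_append, ih, pr_single, pr_cons, mul_inv_rev, rf_inv]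

theorem exists_word {D : Set V} {w : V ≃ₗᵢ[ℝ] V} (hw : w ∈ Wg D) :
    ∃ L : List V, (∀ a ∈ L, a ∈ D) ∧ pr L = w := by
  unfold Wg at hw
  induction hw using Subgroup.closure_induction with
  | mem x hx =>
    obtain ⟨a, ha, rfl⟩ := hx
    exact ⟨[a], by simpa using ha, pr_single a⟩
  | one => exact ⟨[], by simp, rfl⟩
  | mul x y _ _ hx hy =>
    obtain ⟨L, h1, rfl⟩ := hx
    obtain ⟨M, h2, rfl⟩ := hy
    refine ⟨L ++ M, fun a ha => ?_, pr_append L M⟩
    rcases List.mem_append.1 ha with h | h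
    · exact h1 a h
    · exact h2 a h
  | inv x _ hx =>
    obtain ⟨L, h1, rfl⟩ := hx
    exact ⟨L.reverse, fun a ha => h1 a (List.mem_reverse.1 ha), pr_reverse L⟩

section

variable {Φ : Set V} {l : V} (hΦ : IsRoots Φ) (hreg : ∀ a ∈ Φ, ⟪l, a⟫ ≠ 0) {D : Set V}
  (hDP : D ⊆ pos Φ l) (hPD : pos Φ l ⊆ cone D)
  (hD : ∀ a ∈ D, ∀ b ∈ pos Φ l, b ≠ a → rf a b ∈ pos Φ l)

include hΦ hDP hPD hD in
theorem rf_mem_D {b : V} (hb : b ∈ pos Φ l) : rf b ∈ Wg D := by
  by_contra hcon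
  have hfin : {b | b ∈ pos Φ l ∧ rf b ∉ Wg D}.Finite := hΦ.fin.subset fun x hx => hx.1.1
  obtain ⟨b, ⟨hb, hbn⟩, hmin⟩ := Set.exists_min_image _ (fun x => ⟪l, x⟫) hfin ⟨b, hb, hcon⟩
  have h1 : ∃ d ∈ D, 0 < ⟪b, d⟫ := by
    by_contra hc
    push Not at hc
    have h2 := cone_nonneg (hPD hb) (-(innerSL ℝ b).toLinearMap) (fun d hd => by
      have := hc d hd
      change 0 ≤ -⟪b, d⟫
      linarith)
    change 0 ≤ -⟪b, b⟫ at h2
    rw [hΦ.inner hb.1] at h2
    linarith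
  obtain ⟨d, hd, hbd⟩ := h1
  have hdu : ‖d‖ = 1 := hΦ.unit d (hDP hd).1
  by_cases hbd' : b = d
  · exact hbn (by rw [hbd']; exact rf_mem hd)
  · have h2 := hD d hd b hb hbd'
    have h3 : ⟪l, rf d b⟫ < ⟪l, b⟫ := by
      rw [rf_apply hdu, inner_sub_right, real_inner_smul_right, real_inner_comm b d]
      have h4 := (hDP hd).2
      have h5 : 0 < ⟪b, d⟫ * ⟪l, d⟫ := mul_pos hbd h4
      linarith
    by_cases h4 : rf (rf d b) ∈ Wg D
    · apply hbn
      rw [rf_conj (hΦ.unit b hb.1)] at h4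
      have h5 : rf b = (rf d)⁻¹ * (rf d * rf b * (rf d)⁻¹) * rf d := by group
      rw [h5]
      exact mul_mem (mul_mem (inv_mem (rf_mem hd)) h4) (rf_mem hd)
    · have h5 := hmin (rf d b) ⟨h2, h4⟩
      linarith

include hΦ hreg hDP hPD hD in
theorem Wg_le : Wg Φ ≤ Wg D := by
  unfold Wg
  rw [Subgroup.closure_le]
  rintro _ ⟨b, hb, rfl⟩
  rcases lt_or_gt_of_ne (hreg b hb) with h | h
  · rw [← rf_neg]
    exact rf_mem_D hΦ hDP hPD hD ⟨hΦ.neg hb, by rw [inner_neg_right]; linarith⟩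
  · exact rf_mem_D hΦ hDP hPD hD ⟨hb, h⟩

include hΦ hDP hD in
theorem shorten (L : List V) : (∀ s ∈ L, s ∈ D) → ∀ a ∈ D, pr L a ∉ pos Φ l →
    ∃ M : List V, M.length + 1 = L.length ∧ (∀ s ∈ M, s ∈ D) ∧ pr M = pr L * rf a := by
  induction L with
  | nil =>
    intro _ a ha h
    exact absurd (hDP ha) h
  | cons s L ih =>
    intro hs a ha h
    by_cases h1 : pr L a ∈ pos Φ l
    · have h2 : pr L a = s := by
        by_contra h3
        exact h (hD s (hs s (by simp)) _ h1 h3)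
      refine ⟨L, by simp, fun x hx => hs x (by simp [hx]), ?_⟩
      rw [pr_cons, ← h2, rf_conj (hΦ.unit a (hDP ha).1)]
      calc pr L = pr L * (rf a * rf a) := by rw [rf_mul, mul_one]
        _ = pr L * rf a * (pr L)⁻¹ * pr L * rf a := by group
    · obtain ⟨M, h2, h3, h4⟩ := ih (fun x hx => hs x (by simp [hx])) a ha h1
      refine ⟨s :: M, by simp [h2], ?_, ?_⟩
      · intro x hx
        rcases List.mem_cons.1 hx with rfl | hx
        · exact hs x (by simp)
        · exact h3 x hx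
      · rw [pr_cons, h4, pr_cons, mul_assoc]

end

theorem t_WORD : S_WORD := by
  intro V _ _ _ Φ l hΦ hreg D hDP hPD hD w hw
  classical
  have h0 : ∃ n : ℕ, ∃ L : List V, L.length = n ∧ (∀ a ∈ L, a ∈ D) ∧ pr L = w := by
    obtain ⟨L, h1, h2⟩ := exists_word (Wg_le hΦ hreg hDP hPD hD hw)
    exact ⟨L.length, L, rfl, h1, h2⟩
  obtain ⟨L, hlen, hL, hpr⟩ := Nat.find_spec h0
  refine ⟨L, hL, hpr, ?_⟩
  intro L₁ L₂ a hLe
  by_contra hcon
  obtain ⟨M, h1, h2, h3⟩ := shorten hΦ hDP hD L₁ (fun s hs => hL s (by simp [hLe, hs])) a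
    (hL a (by simp [hLe])) hcon
  have h4 : ∃ L' : List V, L'.length = M.length + L₂.length ∧ (∀ a ∈ L', a ∈ D) ∧ pr L' = w := by
    refine ⟨M ++ L₂, by simp, ?_, ?_⟩
    · intro x hx
      rcases List.mem_append.1 hx with h | h
      · exact h2 x h
      · exact hL x (by simp [hLe, h])
    · rw [pr_append, h3, ← hpr, hLe, pr_append, pr_cons, mul_assoc]
  have h5 := Nat.find_min' h0 h4
  rw [← hlen, hLe, List.length_append, List.length_cons] at h5
  omega

end Pool.Agent.E8helper60.FL
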